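import Pool.Agent.helper61.Y2.Spec

set_option autoImplicit false

namespace H61.Y2

open H61.Yorioka Cardinal

theorem E2_LS {S T : Set (List Bool)} (h : S ⊆ T) : LS S ⊆ LS T := by
  intro x hx
  exact Set.Infinite.mono (fun t ht => ⟨h ht.1, ht.2⟩) hx

theorem E2_KK (j : ℕ) : KK (j + 1) = KK j ^ 2 := by
  unfold KK
  rw [← pow_mul, pow_succ]

theorem E2_le (j : ℕ) : 2 ^ j ≤ KK j := by
  unfold KK
  exact Nat.pow_le_pow_right (by norm_num) (Nat.lt_two_pow_self).le

theorem E2 (hGD : GD_stmt) (hCOR : COR_stmt) (hAVO : AVO_stmt) (hGV : GV_stmt) : E2_stmt := by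
  intro f e T hf hT he hLS
  set Φ : Set (ℕ × List Bool) :=
    {x | ∃ j, e j ≤ f (KK j) ∧ x = (e j, List.replicate (f (KK j) - e j) false)} with hΦ
  have hsub : {t | ∃ l s, ∃ p : List Bool, (l, s) ∈ Φ ∧ p.length = l ∧ t = p ++ s} ⊆ UN (AE f e) := by
    rintro t ⟨l, s, p, ⟨j, hj, hx⟩, hp, rfl⟩
    rw [Prod.mk.injEq] at hx
    obtain ⟨rfl, rfl⟩ := hx
    refine ⟨j, ?_⟩
    unfold AE
    rw [if_pos hj]
    exact Finset.mem_image.2 ⟨p, mem_level.2 hp, rfl⟩
  obtain ⟨q, M, hq, hM⟩ := hCOR T Φ (hGD f hf T hT) ((E2_LS hsub).trans hLS)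
  obtain ⟨N₀, hN₀⟩ := hGV f hf T hT
  obtain ⟨m₁, hm₁⟩ := he 1
  refine ⟨max m₁ (max M (max (q.length + 1) N₀)), fun j hj => ?_⟩
  have hj1 : m₁ ≤ j := (le_max_left _ _).trans hj
  have hj2 : M ≤ j := ((le_max_left _ _).trans (le_max_right _ _)).trans hj
  have hj3 : q.length + 1 ≤ j := ((le_max_left _ _).trans ((le_max_right _ _).trans (le_max_right _ _))).trans hj
  have hj4 : N₀ ≤ j := ((le_max_right _ _).trans ((le_max_right _ _).trans (le_max_right _ _))).trans hj
  have hjK : j ≤ KK j := (Nat.lt_two_pow_self).le.trans (E2_le j)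
  have hKf : KK j ≤ f (KK j) := hf.le_apply
  have hef : e j ≤ f (KK j) := by
    have h1 := hm₁ j hj1
    rw [one_mul] at h1
    exact h1.trans ((E2_le j).trans hKf)
  by_contra hcon
  push Not at hcon
  unfold ET at hcon
  set R := f (KK (j + 1)) with hR
  set c := cn T R with hc
  have hcl : c ≤ 2 ^ Nat.clog 2 c := Nat.le_pow_clog (by norm_num) c
  have h4 : 4 * c ≤ 2 ^ (e j - q.length) := by
    have h1 : 2 + Nat.clog 2 c ≤ e j - q.length := by omega
    calc 4 * c ≤ 2 ^ 2 * 2 ^ Nat.clog 2 c := by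
          have : (4 : ℕ) = 2 ^ 2 := by norm_num
          rw [← this]
          exact Nat.mul_le_mul_left _ hcl
      _ = 2 ^ (2 + Nat.clog 2 c) := by rw [pow_add]
      _ ≤ 2 ^ (e j - q.length) := Nat.pow_le_pow_right (by norm_num) h1
  obtain ⟨p, hpl, hqp, hav⟩ := hAVO T q (e j) R hq (by omega) h4
  set v := p ++ List.replicate (f (KK j) - e j) false with hv
  have hvl : v.length = f (KK j) := by
    rw [hv, List.length_append, List.length_replicate, hpl]
    omega
  have hpv : p <+: v := List.prefix_append _ _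
  have hqv : q.length ≤ v.length := by
    rw [hvl]
    omega
  have hgood : Good T v := by
    refine hN₀ (KK j) (hj4.trans hjK) v hvl fun t ht hvt hlt => ?_
    by_contra hlt2
    push Not at hlt2
    rw [← E2_KK] at hlt2
    exact (hav t ht (by omega) hlt2).2 (hpv.trans hvt)
  obtain ⟨t, ht, htl, htv⟩ := hM (e j) (List.replicate (f (KK j) - e j) false) ⟨j, hef, rfl⟩ (by
    rw [List.length_replicate]
    omega) p hpl hqp hgood
  have hlt : t.length < R := by
    have h1 : t.length ≤ v.length := htv.length_le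
    have h2 : f (KK j) < R := by
      rw [hR]
      refine hf ?_
      rw [E2_KK]
      have : 2 ≤ KK j := by
        have h3 := E2_le j
        have h5 : 2 ^ 1 ≤ 2 ^ j := Nat.pow_le_pow_right (by norm_num) (by omega)
        omega
      nlinarith
    omega
  obtain ⟨h1, h2⟩ := hav t ht htl hlt
  rcases List.prefix_or_prefix_of_prefix htv hpv with h | h
  · exact h1 h
  · exact h2 h

end H61.Y2
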